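import Pool.Agent.Y951.MW.Final

/-!
# Montgomery's bound for Weyl sums with prime denominator, for all lower-order terms

Let `q` be a prime and let `c` be any complex sequence with `|c n| ≤ 1`. We consider the sums
`∑_{u < n ≤ v} c n e((b n^k + h(n)) / q + ξ n)`, `v ≤ N`, for all integral polynomials `h` of degree less
than `k`, all real `ξ` and all `u`, `v`, as a function of the residue `b` modulo `q`.

1. If `k ≥ 2`, `q ∤ k` and `2 N (k-1) q^(-1/2) (2N + q (1 + log q)) ≤ V^2`, then for all `b` modulo `q`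
   with at most `2 N^2 / V^2` exceptions all these sums (all `h`, `ξ`, `u`, `v`) are less than `V`.
2. If `0 ≤ η ≤ 1/4`, `ε > 0`, `N ≥ N₀(k, η, ε)` and `q ≤ N^(2 - 4η)`, then they are all at most
   `N^(1+ε) max(1/q, 1/N)^η`, for all `b` with at most `2 min(q, N)^(2η) N^(-2ε)` exceptions.
3. If `k ≥ 4`, `ε > 0` and `N ≥ N₀(k, ε)`, then for every prime `q ≤ N` and every real `t` the
   inequality of `H_k(1/k)`, with this `q` and the constant `1`, holds at `t + b/q`, for all `ξ` and with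
   any additional term `h(n) / q` as above, for all `b` modulo `q` with at most
   `2 q^(2/k) N^(-2ε)` exceptions. In particular (`t = 0`) it holds at the fractions `b/q` themselves.

Outline. If the sums are large for `b` and `b'`, with `h`, `ξ` and `h'`, `ξ'`, then the difference of
the two polynomials has the degree `k` modulo `q`, so that the incomplete sum of the product of one
exponential with the conjugate of the other is bounded by Weil's estimate for complete sums,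
uniformly in `ξ`, `ξ'`. So the exponentials are almost orthogonal, and the number of large
values is bounded by duality (library files `Pool/Agent/Y951/MW`).
-/

set_option autoImplicit false

namespace Pool.Agent.Results.MP_3b0be2_nt.AllLowerTermsPrimeModuli

open Finset Polynomial
open Pool.Agent.Y951.MW

/-- `e(x) = exp(2πix)` -/
noncomputable def e (x : ℝ) : ℂ := Complex.exp (2 * (Real.pi : ℂ) * Complex.I * (x : ℂ))

/-- the sum `∑_{u < n ≤ v} c n e((b n^k + h(n)) / q + ξ n)` -/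
noncomputable def incomplete (k q b : ℕ) (h : ℤ[X]) (ξ : ℝ) (c : ℕ → ℂ) (u v : ℕ) : ℂ :=
  ∑ n ∈ Ioc u v, c n * e (((b : ℝ) * (n : ℝ) ^ k + ((h.eval (n : ℤ) : ℤ) : ℝ)) / q + ξ * n)

/-- the sum `∑_{n ≤ N} e((t + b/q) n^k + h(n)/q + ξ n)` -/
noncomputable def translate (k q b N : ℕ) (h : ℤ[X]) (t ξ : ℝ) : ℂ :=
  ∑ n ∈ Icc 1 N, e ((t + (b : ℝ) / q) * (n : ℝ) ^ k + ((h.eval (n : ℤ) : ℤ) : ℝ) / q + ξ * n)

theorem e_eq' (x : ℝ) : e x = Pool.Agent.Y933.KD.e x := (e_eq x).symm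

/-- **Main theorem.** -/
theorem result :
    (∀ k : ℕ, 2 ≤ k → ∀ q : ℕ, q.Prime → ¬ q ∣ k → ∀ N : ℕ, ∀ c : ℕ → ℂ, (∀ n, ‖c n‖ ≤ 1) →
      ∀ V : ℝ, 0 < V →
      2 * N * (((k - 1 : ℕ) : ℝ) * √q / q * (2 * N + q * (1 + Real.log q))) ≤ V ^ 2 →
      (({b : ℕ | b < q ∧ ∃ h : ℤ[X], h.natDegree < k ∧ ∃ (ξ : ℝ) (u v : ℕ), v ≤ N ∧
        V ≤ ‖incomplete k q b h ξ c u v‖}.ncard : ℕ) : ℝ) ≤ 2 * N ^ 2 / V ^ 2) ∧
    (∀ k : ℕ, 2 ≤ k → ∀ η : ℝ, 0 ≤ η → η ≤ 1 / 4 → ∀ ε : ℝ, 0 < ε → ∃ N₀ : ℕ, ∀ N : ℕ, N₀ ≤ N →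
      ∀ q : ℕ, q.Prime → (q : ℝ) ≤ (N : ℝ) ^ (2 - 4 * η) → ∀ c : ℕ → ℂ, (∀ n, ‖c n‖ ≤ 1) →
      (({b : ℕ | b < q ∧ ∃ h : ℤ[X], h.natDegree < k ∧ ∃ (ξ : ℝ) (u v : ℕ), v ≤ N ∧
        (N : ℝ) ^ (1 + ε) * (max (1 / (q : ℝ)) (1 / (N : ℝ))) ^ η <
          ‖incomplete k q b h ξ c u v‖}.ncard : ℕ) : ℝ) ≤
        2 * (min (q : ℝ) (N : ℝ)) ^ (2 * η) / (N : ℝ) ^ (2 * ε)) ∧
    (∀ k : ℕ, 4 ≤ k → ∀ ε : ℝ, 0 < ε → ∃ N₀ : ℕ, ∀ N : ℕ, N₀ ≤ N →
      ∀ q : ℕ, q.Prime → q ≤ N → ∀ t : ℝ,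
      (({b : ℕ | b < q ∧ ¬ ∀ h : ℤ[X], h.natDegree < k → ∀ ξ : ℝ,
        ‖translate k q b N h t ξ‖ ≤ (N : ℝ) ^ (1 + ε) *
          (1 / (q : ℝ) + 1 / (N : ℝ) + (q : ℝ) / (N : ℝ) ^ k) ^ (1 / (k : ℝ))}.ncard : ℕ) : ℝ) ≤
        2 * (q : ℝ) ^ (2 / (k : ℝ)) / (N : ℝ) ^ (2 * ε)) := by
  refine ⟨fun k hk q hq hqk N c hc V hV hV2 => ?_, fun k hk η hη0 hη ε hε => ?_,
    fun k hk ε hε => ?_⟩
  · have : Fact q.Prime := ⟨hq⟩
    have h1 := large_values (p := q) hk hqk (N := N) c hc hV (by unfold Gam; exact hV2)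
    simp only [incomplete, e_eq']
    exact h1
  · obtain ⟨N₀, h⟩ := montgomery hk hη0 hη hε
    refine ⟨N₀, fun N hN q hq hqN c hc => ?_⟩
    have h1 := h N hN q hq hqN c hc
    simp only [incomplete, e_eq']
    exact h1
  · have hk0 : (0 : ℝ) < k := by
      have : 0 < k := by omega
      exact_mod_cast this
    have hk4 : (4 : ℝ) ≤ k := by exact_mod_cast hk
    have hη : 1 / (k : ℝ) ≤ 1 / 4 := one_div_le_one_div_of_le (by norm_num) hk4
    obtain ⟨N₀, h⟩ := montgomery (show 2 ≤ k by omega) (show (0 : ℝ) ≤ 1 / k by positivity) hη hε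
    refine ⟨max N₀ 1, fun N hN q hq hqN t => ?_⟩
    have hN1 : 1 ≤ N := (le_max_right _ _).trans hN
    have hN1R : (1 : ℝ) ≤ N := by exact_mod_cast hN1
    have hN0 : (0 : ℝ) < N := by linarith
    have hq0 : (0 : ℝ) < q := by exact_mod_cast hq.pos
    have hqNR : (q : ℝ) ≤ N := by exact_mod_cast hqN
    have hqN' : (q : ℝ) ≤ (N : ℝ) ^ (2 - 4 * (1 / (k : ℝ))) := by
      calc (q : ℝ) ≤ N := hqNR
        _ = (N : ℝ) ^ (1 : ℝ) := (Real.rpow_one _).symm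
        _ ≤ _ := Real.rpow_le_rpow_of_exponent_le hN1R (by linarith)
    have hc : ∀ n : ℕ, ‖e (t * (n : ℝ) ^ k)‖ ≤ 1 := by
      intro n
      unfold e
      rw [Complex.norm_exp]
      have : (2 * (Real.pi : ℂ) * Complex.I * ((t * (n : ℝ) ^ k : ℝ) : ℂ)).re = 0 := by
        simp only [Complex.mul_re, Complex.re_ofNat, Complex.ofReal_re, Complex.im_ofNat,
          Complex.ofReal_im, Complex.I_re, Complex.I_im, Complex.mul_im]
        ring
      rw [this, Real.exp_zero]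
    have h1 := h N ((le_max_left _ _).trans hN) q hq hqN' (fun n => e (t * (n : ℝ) ^ k)) hc
    have hexp : 2 * (1 / (k : ℝ)) = 2 / k := by ring
    rw [min_eq_left hqNR, hexp] at h1
    refine le_trans ?_ h1
    have hsub : {b : ℕ | b < q ∧ ¬ ∀ h : ℤ[X], h.natDegree < k → ∀ ξ : ℝ,
        ‖translate k q b N h t ξ‖ ≤ (N : ℝ) ^ (1 + ε) *
          (1 / (q : ℝ) + 1 / (N : ℝ) + (q : ℝ) / (N : ℝ) ^ k) ^ (1 / (k : ℝ))} ⊆
        {b : ℕ | b < q ∧ ∃ h : ℤ[X], h.natDegree < k ∧ ∃ (ξ : ℝ) (u v : ℕ), v ≤ N ∧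
        (N : ℝ) ^ (1 + ε) * (max (1 / (q : ℝ)) (1 / (N : ℝ))) ^ (1 / (k : ℝ)) <
          ‖∑ n ∈ Finset.Ioc u v, e (t * (n : ℝ) ^ k) * Pool.Agent.Y933.KD.e
            ((((b : ℝ) * (n : ℝ) ^ k + ((h.eval (n : ℤ) : ℤ) : ℝ))) / q + ξ * n)‖} := by
      rintro b ⟨hb, hne⟩
      push Not at hne
      obtain ⟨g, hg, ξ, hlt⟩ := hne
      refine ⟨hb, g, hg, ξ, 0, N, le_rfl, ?_⟩
      have hle : (N : ℝ) ^ (1 + ε) * (max (1 / (q : ℝ)) (1 / (N : ℝ))) ^ (1 / (k : ℝ)) ≤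
          (N : ℝ) ^ (1 + ε) *
            (1 / (q : ℝ) + 1 / (N : ℝ) + (q : ℝ) / (N : ℝ) ^ k) ^ (1 / (k : ℝ)) := by
        refine mul_le_mul_of_nonneg_left ?_ (by positivity)
        apply Real.rpow_le_rpow (by positivity) _ (by positivity)
        have h2 : 0 ≤ (q : ℝ) / (N : ℝ) ^ k := by positivity
        have h3 : 0 ≤ 1 / (q : ℝ) := by positivity
        have h4 : 0 ≤ 1 / (N : ℝ) := by positivity
        exact max_le (by linarith) (by linarith)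
      refine (hle.trans_lt hlt).trans_le (le_of_eq ?_)
      congr 1
      unfold translate
      rw [show Finset.Icc 1 N = Finset.Ioc 0 N from rfl]
      refine Finset.sum_congr rfl fun n _ => ?_
      rw [← e_eq']
      unfold e
      rw [← Complex.exp_add]
      congr 1
      push_cast
      field_simp
      ring
    have hfin : {b : ℕ | b < q ∧ ∃ h : ℤ[X], h.natDegree < k ∧ ∃ (ξ : ℝ) (u v : ℕ), v ≤ N ∧
        (N : ℝ) ^ (1 + ε) * (max (1 / (q : ℝ)) (1 / (N : ℝ))) ^ (1 / (k : ℝ)) <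
          ‖∑ n ∈ Finset.Ioc u v, e (t * (n : ℝ) ^ k) * Pool.Agent.Y933.KD.e
            ((((b : ℝ) * (n : ℝ) ^ k + ((h.eval (n : ℤ) : ℤ) : ℝ))) / q + ξ * n)‖}.Finite :=
      (Set.finite_Iio q).subset fun b hb => hb.1
    exact_mod_cast Set.ncard_le_ncard hsub hfin

end Pool.Agent.Results.MP_3b0be2_nt.AllLowerTermsPrimeModuli
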