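import Pool.Agent.Q56.SI.Large

/-!
# Montgomery's bound for almost all points of every interval of length at least `N ^ (1 - k + 1 / k)`
-/

set_option autoImplicit false

open MeasureTheory

namespace Pool.Agent.Results.MP_3b0be2_nt.EveryShortInterval

/-- `e(x) = exp(2πix)`. -/
noncomputable def e (x : ℝ) : ℂ := Complex.exp (2 * (Real.pi : ℂ) * Complex.I * (x : ℂ))

/-- the sum of `c n e(t n^k + ξ n)` over `1 ≤ n ≤ N`. -/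
noncomputable def S (c : ℕ → ℂ) (k N : ℕ) (t ξ : ℝ) : ℂ :=
  ∑ n ∈ Finset.Icc 1 N, c n * e (t * (n : ℝ) ^ k + ξ * (n : ℝ))

/-- the inequality of `H_k(η)`, with this `ε` and constant `1`, fails at `t` for some real `ξ` and some
admissible fraction `a/q`. -/
def Fails (k : ℕ) (η ε : ℝ) (N : ℕ) (t : ℝ) : Prop :=
  ∃ ξ : ℝ, ∃ a q : ℕ, 1 ≤ a ∧ a < q ∧ q ≤ N ∧ Nat.Coprime a q ∧
    |t - (a : ℝ) / (q : ℝ)| ≤ 1 / (q : ℝ) ^ 2 ∧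
    (N : ℝ) ^ (1 + ε) * (1 / (q : ℝ) + 1 / (N : ℝ) + (q : ℝ) / (N : ℝ) ^ k) ^ η <
      ‖S (fun _ => 1) k N t ξ‖

/-- For `k ≥ 4`, `ε > 0` and `N` large in terms of these, uniformly in every interval `[u, u + L]`. -/
theorem result : ∀ k : ℕ, 4 ≤ k → ∀ ε : ℝ, 0 < ε → ∃ N₀ : ℕ, ∀ N : ℕ, N₀ ≤ N →
    -- all bounded coefficients, all exponents
    (∀ η : ℝ, 0 ≤ η → η ≤ 1 → ∀ c : ℕ → ℂ, (∀ n, ‖c n‖ ≤ 1) → ∀ u L : ℝ, 0 ≤ L →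
      volume {t : ℝ | t ∈ Set.Icc u (u + L) ∧ ∃ ξ : ℝ, (N : ℝ) ^ (1 - η + ε) ≤ ‖S c k N t ξ‖} ≤
        ENNReal.ofReal ((N : ℝ) ^ (-(3 * ε)) * (L * (N : ℝ) ^ (4 * η - 1) +
          (N : ℝ) ^ (((k : ℝ) + 1) * η - k)))) ∧
    -- the inequality of `H_k(η)`
    (∀ η : ℝ, 0 ≤ η → η ≤ 1 → ∀ u L : ℝ, 0 ≤ L →
      volume {t : ℝ | t ∈ Set.Icc u (u + L) ∧ Fails k η ε N t} ≤
        ENNReal.ofReal ((N : ℝ) ^ (-(3 * ε)) * (L * (N : ℝ) ^ (4 * η - 1) +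
          (N : ℝ) ^ (((k : ℝ) + 1) * η - k)))) ∧
    -- the inequality of `H_k(1/k)` in every interval of length at least `N^(1-k+1/k)`
    (∀ u L : ℝ, (N : ℝ) ^ (1 - (k : ℝ) + 1 / (k : ℝ)) ≤ L →
      volume {t : ℝ | t ∈ Set.Icc u (u + L) ∧ Fails k (1 / (k : ℝ)) ε N t} ≤
        ENNReal.ofReal (2 * (N : ℝ) ^ (-(3 * ε)) * L)) ∧
    -- the inequality of `H_k(1/k)` in every interval of length at least `N^(2-k-3/k)`
    (∀ u L : ℝ, (N : ℝ) ^ (2 - (k : ℝ) - 3 / (k : ℝ)) ≤ L →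
      volume {t : ℝ | t ∈ Set.Icc u (u + L) ∧ Fails k (1 / (k : ℝ)) ε N t} ≤
        ENNReal.ofReal (2 * (N : ℝ) ^ (4 / (k : ℝ) - 1 - 3 * ε) * L)) := by
  intro k hk ε hε
  obtain ⟨N₀, hN₀, h⟩ := Pool.Agent.Q56.SI.large k hk ε hε
  refine ⟨N₀, fun N hN => ?_⟩
  have hN1' : 1 ≤ N := hN₀.trans hN
  have hN1 : (1 : ℝ) ≤ N := by exact_mod_cast hN1'
  have hN0 : (0 : ℝ) < N := by linarith
  have hk4 : (4 : ℝ) ≤ k := by exact_mod_cast hk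
  have hk0 : (0 : ℝ) < k := by linarith
  have hfull : ∀ (c : ℕ → ℂ) (t ξ : ℝ), Pool.Agent.Q56.SI.full c k N t ξ = S c k N t ξ := by
    intro c t ξ
    rfl
  have A : ∀ η : ℝ, 0 ≤ η → η ≤ 1 → ∀ c : ℕ → ℂ, (∀ n, ‖c n‖ ≤ 1) → ∀ u L : ℝ, 0 ≤ L →
      volume {t : ℝ | t ∈ Set.Icc u (u + L) ∧ ∃ ξ : ℝ, (N : ℝ) ^ (1 - η + ε) ≤ ‖S c k N t ξ‖} ≤
        ENNReal.ofReal ((N : ℝ) ^ (-(3 * ε)) * (L * (N : ℝ) ^ (4 * η - 1) +
          (N : ℝ) ^ (((k : ℝ) + 1) * η - k))) :=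
    fun η h0 h1 c hc u L hL => h N hN η h0 h1 c hc u L hL
  have B : ∀ η : ℝ, 0 ≤ η → η ≤ 1 → ∀ u L : ℝ, 0 ≤ L →
      volume {t : ℝ | t ∈ Set.Icc u (u + L) ∧ Fails k η ε N t} ≤
        ENNReal.ofReal ((N : ℝ) ^ (-(3 * ε)) * (L * (N : ℝ) ^ (4 * η - 1) +
          (N : ℝ) ^ (((k : ℝ) + 1) * η - k))) := by
    intro η h0 h1 u L hL
    refine (measure_mono ?_).trans (A η h0 h1 (fun _ => 1) (fun _ => by simp) u L hL)
    rintro t ⟨ht, ξ, a, q, ha, haq, hqN, _, _, hf⟩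
    refine ⟨ht, ξ, ?_⟩
    refine le_trans ?_ hf.le
    have hq : (0 : ℝ) < q := by
      have : 0 < q := by omega
      exact_mod_cast this
    have h2 : (1 / (N : ℝ)) ^ η ≤ (1 / (q : ℝ) + 1 / (N : ℝ) + (q : ℝ) / (N : ℝ) ^ k) ^ η := by
      apply Real.rpow_le_rpow (by positivity) _ h0
      have : 0 < 1 / (q : ℝ) := by positivity
      have : 0 < (q : ℝ) / (N : ℝ) ^ k := by positivity
      linarith
    have h3 : (N : ℝ) ^ (1 - η + ε) = (N : ℝ) ^ (1 + ε) * (1 / (N : ℝ)) ^ η := by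
      rw [one_div, Real.inv_rpow hN0.le, ← Real.rpow_neg hN0.le, ← Real.rpow_add hN0]
      congr 1
      ring
    rw [h3]
    exact mul_le_mul_of_nonneg_left h2 (by positivity)
  have hη0 : (0 : ℝ) ≤ 1 / k := by positivity
  have hη1 : 1 / (k : ℝ) ≤ 1 := by
    rw [div_le_one hk0]
    linarith
  have e1 : ((k : ℝ) + 1) * (1 / (k : ℝ)) - k = 1 - (k : ℝ) + 1 / (k : ℝ) := by
    field_simp
    ring
  have hE : 0 ≤ (N : ℝ) ^ (-(3 * ε)) := by positivity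
  refine ⟨A, B, fun u L hL => ?_, fun u L hL => ?_⟩
  · have hL0 : 0 ≤ L := le_trans (by positivity) hL
    refine (B (1 / (k : ℝ)) hη0 hη1 u L hL0).trans (ENNReal.ofReal_le_ofReal ?_)
    rw [e1]
    have h4 : (N : ℝ) ^ (4 * (1 / (k : ℝ)) - 1) ≤ 1 := by
      apply Real.rpow_le_one_of_one_le_of_nonpos hN1
      have : 1 / (k : ℝ) ≤ 1 / 4 := one_div_le_one_div_of_le (by norm_num) hk4
      linarith
    have h5 : L * (N : ℝ) ^ (4 * (1 / (k : ℝ)) - 1) ≤ L * 1 := mul_le_mul_of_nonneg_left h4 hL0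
    have h6 := mul_le_mul_of_nonneg_left (add_le_add h5 hL) hE
    linarith
  · have hL0 : 0 ≤ L := le_trans (by positivity) hL
    refine (B (1 / (k : ℝ)) hη0 hη1 u L hL0).trans (ENNReal.ofReal_le_ofReal ?_)
    rw [e1]
    have h5 : (N : ℝ) ^ (1 - (k : ℝ) + 1 / (k : ℝ)) ≤ L * (N : ℝ) ^ (4 * (1 / (k : ℝ)) - 1) := by
      have h6 : (N : ℝ) ^ (1 - (k : ℝ) + 1 / (k : ℝ)) =
          (N : ℝ) ^ (2 - (k : ℝ) - 3 / (k : ℝ)) * (N : ℝ) ^ (4 * (1 / (k : ℝ)) - 1) := by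
        rw [← Real.rpow_add hN0]
        congr 1
        ring
      rw [h6]
      exact mul_le_mul_of_nonneg_right hL (by positivity)
    have h7 := mul_le_mul_of_nonneg_left (add_le_add (le_refl (L * (N : ℝ) ^ (4 * (1 / (k : ℝ)) - 1))) h5) hE
    refine h7.trans (le_of_eq ?_)
    have h8 : (N : ℝ) ^ (4 / (k : ℝ) - 1 - 3 * ε) =
        (N : ℝ) ^ (4 * (1 / (k : ℝ)) - 1) * (N : ℝ) ^ (-(3 * ε)) := by
      rw [← Real.rpow_add hN0]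
      congr 1
      ring
    rw [h8]
    ring

end Pool.Agent.Results.MP_3b0be2_nt.EveryShortInterval
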