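import Pool.Agent.Q39.MH.Dim

/-!
# Montgomery's conjecture on Weyl sums: the Hausdorff dimension of the set of bad leading coefficients

Let `k ≥ 3` and `1 ≤ j ≤ k`. For every `θ` the set of the real `t` such that for no constant `C` the
inequality `|∑_{n ≤ N} e(t n^k + ξ n)| ≤ C N^θ` holds for all `N ≥ 1` and ALL real `ξ` has Hausdorff
dimension at most `1 - (j - (2^j + 2) (1 - θ)) / k`. Hence, for every `ε > 0`, the set of the `t` at
which the inequality of `H_k(1/k)` fails (for every constant, for some `N`, `ξ`, `a`, `q`) has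
dimension at most `1 - (j k - (2^j + 2) (1 - k ε)) / k^2`; with `j = 2` this is `1 - 2 ε` for `k = 3` and
`7/8 - (3/2) ε` for `k = 4`. For every `k ≥ 3` almost every `t` satisfies the inequalities of `H_k(η)`, `η ≤ 1/3`, for all `ξ`; in particular
almost every `t` satisfies those of `H_3(1/3)` and of `H_k(1/k)`.

Outline. Let `J_s(N)` be the number of solutions of `∑ x_i = ∑ y_i`, `∑ x_i^k = ∑ y_i^k`, `i ≤ s`, in positive
integers up to `N`. The measure of the set of the `t` in an interval of length one such that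
`|∑_{n ≤ N} e(t n^k + ξ n)| ≥ λ` for some `ξ` is at most `(s N + 1) J_s(N) / λ^(2s)`. For `s = 3` one has
`J_s(N) ≤ C N^(3 + ε)`: if `x_0 ≠ y_0` then `x_0 - y_0` divides
`y_1^k + (x_1 + x_2 - y_1)^k - x_1^k - x_2^k`, which is zero only if `y_1` is `x_1` or `x_2`. Differencing
as in Hua's lemma gives `J_s(N) ≤ C N^(2^j - j + 1 + ε)` for `2 s = 2^j + 2`, `j ≤ k` (library files
`Pool/Agent/TH181/MW`). By partial summation and a maximal inequality for incomplete sums large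
values persist on intervals of length `N^(-k)`.
-/

set_option autoImplicit false

namespace Pool.Agent.Results.MP_3b0be2_nt.LeadingCoefficientsDimension

open Finset MeasureTheory Pool.Agent.Q39.MH

/-- the Weyl sum `∑_{n ≤ N} e(t n^k + ξ n)` -/
noncomputable def weylSum (k N : ℕ) (t ξ : ℝ) : ℂ :=
  ∑ n ∈ Finset.Icc 1 N,
    Complex.exp (2 * (Real.pi : ℂ) * Complex.I * (((t * (n : ℝ) ^ k + ξ * (n : ℝ)) : ℝ) : ℂ))

/-- With this `ε` the inequality of `H_k(η)` holds at `t`, for all `N`, all `ξ` and all admissible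
fractions `a / q`, with one constant. -/
def HoldsAt (k : ℕ) (η ε t : ℝ) : Prop :=
  ∃ C : ℝ, ∀ N : ℕ, 2 ≤ N → ∀ ξ : ℝ, ∀ a q : ℕ, 1 ≤ a → a < q → q ≤ N → Nat.Coprime a q →
    |t - (a : ℝ) / (q : ℝ)| ≤ 1 / (q : ℝ) ^ 2 →
    ‖weylSum k N t ξ‖ ≤ C * (N : ℝ) ^ (1 + ε) *
      (1 / (q : ℝ) + 1 / (N : ℝ) + (q : ℝ) / (N : ℝ) ^ k) ^ η

/-- `|∑_{n ≤ N} e(t n^k + ξ n)| ≤ C N^θ` for all `N ≥ 1` and all `ξ`, with some constant `C`. -/
def BoundedBy (k : ℕ) (θ t : ℝ) : Prop :=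
  ∃ C : ℝ, ∀ N : ℕ, 1 ≤ N → ∀ ξ : ℝ, ‖weylSum k N t ξ‖ ≤ C * (N : ℝ) ^ θ

theorem exc_eq (k : ℕ) (θ : ℝ) : {t : ℝ | ¬ BoundedBy k θ t} = Exc k θ := rfl

theorem holdsAt_of (k : ℕ) (η ε t : ℝ) (hη : 0 ≤ η) (h : BoundedBy k (1 + ε - η) t) :
    HoldsAt k η ε t := by
  obtain ⟨C, hC⟩ := h
  refine ⟨C, fun N hN ξ a q ha haq hq _ _ => ?_⟩
  have hN1 : (1 : ℝ) ≤ N := by
    have : 1 ≤ N := by omega
    exact_mod_cast this
  have hN0 : (0 : ℝ) < N := by linarith
  have hC0 : 0 ≤ C := by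
    have h1 := hC 1 le_rfl 0
    rw [Nat.cast_one, Real.one_rpow, mul_one] at h1
    exact (norm_nonneg _).trans h1
  refine (hC N (by omega) ξ).trans ?_
  rw [mul_assoc]
  refine mul_le_mul_of_nonneg_left ?_ hC0
  have h1 : (N : ℝ) ^ (1 + ε - η) = (N : ℝ) ^ (1 + ε) * (1 / (N : ℝ)) ^ η := by
    rw [Real.div_rpow (by norm_num) hN0.le, Real.one_rpow, mul_one_div, ← Real.rpow_sub hN0]
  rw [h1]
  refine mul_le_mul_of_nonneg_left ?_ (by positivity)
  apply Real.rpow_le_rpow (by positivity) _ hη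
  have h2 : 0 ≤ 1 / (q : ℝ) + (q : ℝ) / (N : ℝ) ^ k := by positivity
  linarith

/-- (1) the dimension for an arbitrary exponent; (2) the dimension of the set of the `t` at which
`H_k(1/k)` fails; (3) almost every `t`. -/
theorem result (k : ℕ) (hk : 3 ≤ k) :
    (∀ j : ℕ, 1 ≤ j → j ≤ k → ∀ θ : ℝ, dimH {t : ℝ | ¬ BoundedBy k θ t} ≤
      ENNReal.ofReal (1 - ((j : ℝ) - (2 ^ j + 2) * (1 - θ)) / k)) ∧
    (∀ j : ℕ, 1 ≤ j → j ≤ k → ∀ ε : ℝ, 0 < ε → dimH {t : ℝ | ¬ HoldsAt k (1 / k) ε t} ≤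
      ENNReal.ofReal (1 - ((j : ℝ) * k - (2 ^ j + 2) * (1 - k * ε)) / k ^ 2)) ∧
    (∀ᵐ t : ℝ, ∀ ε : ℝ, 0 < ε → BoundedBy k (2 / 3 + ε) t ∧
      ∀ η : ℝ, 0 ≤ η → η ≤ 1 / 3 → HoldsAt k η ε t) := by
  have hk0 : (0 : ℝ) < k := by
    have : 0 < k := by omega
    exact_mod_cast this
  refine ⟨fun j hj hjk θ => ?_, fun j hj hjk ε hε => ?_, ?_⟩
  · rw [exc_eq]
    exact dim_exc k j hk hj hjk θ
  · have hsub : {t : ℝ | ¬ HoldsAt k (1 / k) ε t} ⊆
        {t : ℝ | ¬ BoundedBy k (1 + ε - 1 / k) t} :=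
      fun t ht h => ht (holdsAt_of k (1 / k) ε t (by positivity) h)
    refine (dimH_mono hsub).trans ?_
    · rw [exc_eq]
      refine (dim_exc k j hk hj hjk _).trans (le_of_eq ?_)
      congr 1
      field_simp
      ring
  · have h1 : ∀ m : ℕ, ∀ᵐ t : ℝ, BoundedBy k (2 / 3 + 1 / ((m : ℝ) + 1)) t := by
      intro m
      rw [ae_iff, exc_eq]
      refine null_exc k hk _ ?_
      have : (0 : ℝ) < 1 / ((m : ℝ) + 1) := by positivity
      linarith
    have h2 := ae_all_iff.2 h1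
    filter_upwards [h2] with t ht ε hε
    have h3 : BoundedBy k (2 / 3 + ε) t := by
      obtain ⟨m, hm⟩ := exists_nat_one_div_lt hε
      obtain ⟨C, hC⟩ := ht m
      refine ⟨C, fun N hN ξ => (hC N hN ξ).trans ?_⟩
      have hN1 : (1 : ℝ) ≤ N := by exact_mod_cast hN
      have hC0 : 0 ≤ C := by
        have h1 := hC 1 le_rfl 0
        rw [Nat.cast_one, Real.one_rpow, mul_one] at h1
        exact (norm_nonneg _).trans h1
      exact mul_le_mul_of_nonneg_left (Real.rpow_le_rpow_of_exponent_le hN1 (by linarith)) hC0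
    refine ⟨h3, fun η hη0 hη => holdsAt_of k η ε t hη0 ?_⟩
    obtain ⟨C, hC⟩ := h3
    refine ⟨C, fun N hN ξ => (hC N hN ξ).trans ?_⟩
    have hN1 : (1 : ℝ) ≤ N := by exact_mod_cast hN
    have hC0 : 0 ≤ C := by
      have h1 := hC 1 le_rfl 0
      rw [Nat.cast_one, Real.one_rpow, mul_one] at h1
      exact (norm_nonneg _).trans h1
    exact mul_le_mul_of_nonneg_left (Real.rpow_le_rpow_of_exponent_le hN1 (by linarith)) hC0

end Pool.Agent.Results.MP_3b0be2_nt.LeadingCoefficientsDimension
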